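import Pool.Agent.TH331.RZ.Defs
import Pool.Agent.Helper88.SE.P_exists_haar
import Pool.Agent.Helper88.SE.P_sg_prob

set_option autoImplicit false

/-! Job RZ-D3 (240) for MP_d18e52_an (helper617). -/

open MeasureTheory Set Filter Topology
open scoped ENNReal Real FourierTransform

namespace Pool.Agent.TH617.RZ

open Pool.Agent.TH331.RZ Pool.Agent.Helper88.SE

theorem EnC_nonneg (d : ℕ) (s : ℝ) {N : ℕ} (x : Fin N → Fin d → ℝ) : 0 ≤ EnC d s x := by
  unfold EnC
  exact Finset.sum_nonneg fun i _ => Finset.sum_nonneg fun j _ =>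
    Real.rpow_nonneg (Real.sqrt_nonneg _) _

theorem eC_nonneg (d : ℕ) (s : ℝ) (N : ℕ) : 0 ≤ eC d s N :=
  Real.iInf_nonneg fun x => EnC_nonneg _ _ _

theorem eC_le (d : ℕ) (s : ℝ) {N : ℕ} (x : Fin N → Fin d → ℝ) (hx : Function.Injective x)
    (h01 : ∀ i k, 0 ≤ x i k ∧ x i k ≤ 1) : eC d s N ≤ EnC d s x :=
  ciInf_le (f := fun x : {x : Fin N → Fin d → ℝ //
      Function.Injective x ∧ ∀ i k, 0 ≤ x i k ∧ x i k ≤ 1} => EnC d s x.1)
    ⟨0, by rintro _ ⟨y, rfl⟩; exact EnC_nonneg _ _ _⟩ ⟨x, hx, h01⟩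

theorem K_nonneg {d : ℕ} (s : ℝ) (x y : S d) : 0 ≤ K s x y := Real.rpow_nonneg dist_nonneg _

theorem En_nonneg {d : ℕ} (s : ℝ) {N : ℕ} (x : Fin N → S d) : 0 ≤ En s x :=
  Finset.sum_nonneg fun _ _ => Finset.sum_nonneg fun _ _ => K_nonneg _ _ _

theorem eC_low (d : ℕ) (s C : ℝ) (hq : 0 < 1 + s / (d:ℝ))
    (hC : Tendsto (fun N : ℕ => (N:ℝ) ^ (-1 - s / (d:ℝ)) * eC d s N) atTop (𝓝 C))
    (δ : ℝ) (hδ : 0 < δ) :
    ∃ C1 : ℝ, 0 ≤ C1 ∧ ∀ k : ℕ, (C - δ) * (k:ℝ) ^ (1 + s / (d:ℝ)) - C1 ≤ eC d s k := by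
  have h1 := hC.eventually (lt_mem_nhds (show C - δ < C by linarith))
  obtain ⟨K0, hK0⟩ := eventually_atTop.1 h1
  refine ⟨|C - δ| * ((max K0 1 : ℕ) : ℝ) ^ (1 + s / (d:ℝ)), by positivity, fun k => ?_⟩
  by_cases hk : max K0 1 ≤ k
  · have hk0 : K0 ≤ k := (le_max_left _ _).trans hk
    have hk1 : 1 ≤ k := (le_max_right _ _).trans hk
    have hkp : (0:ℝ) < k := by exact_mod_cast hk1
    have h2 := (hK0 k hk0).le
    have h3 : (C - δ) * (k:ℝ) ^ (1 + s / (d:ℝ)) ≤ eC d s k := by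
      have h4 := mul_le_mul_of_nonneg_right h2 (Real.rpow_nonneg hkp.le (1 + s / (d:ℝ)))
      have h5 : (k:ℝ) ^ (-1 - s / (d:ℝ)) * eC d s k * (k:ℝ) ^ (1 + s / (d:ℝ)) = eC d s k := by
        have : (k:ℝ) ^ (-1 - s / (d:ℝ)) * (k:ℝ) ^ (1 + s / (d:ℝ)) = 1 := by
          rw [← Real.rpow_add hkp]
          have : -1 - s / (d:ℝ) + (1 + s / (d:ℝ)) = 0 := by ring
          rw [this, Real.rpow_zero]
        calc _ = (k:ℝ) ^ (-1 - s / (d:ℝ)) * (k:ℝ) ^ (1 + s / (d:ℝ)) * eC d s k := by ring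
          _ = _ := by rw [this, one_mul]
      rwa [h5] at h4
    have : 0 ≤ |C - δ| * ((max K0 1 : ℕ) : ℝ) ^ (1 + s / (d:ℝ)) := by positivity
    linarith
  · push Not at hk
    have h2 : (k:ℝ) ^ (1 + s / (d:ℝ)) ≤ ((max K0 1 : ℕ) : ℝ) ^ (1 + s / (d:ℝ)) :=
      Real.rpow_le_rpow (Nat.cast_nonneg _) (by exact_mod_cast hk.le) hq.le
    have h3 : (C - δ) * (k:ℝ) ^ (1 + s / (d:ℝ)) ≤ |C - δ| * (k:ℝ) ^ (1 + s / (d:ℝ)) :=
      mul_le_mul_of_nonneg_right (le_abs_self _) (by positivity)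
    have h4 := mul_le_mul_of_nonneg_left h2 (abs_nonneg (C - δ))
    have := eC_nonneg d s k
    linarith

theorem part_energy (d : ℕ) (s : ℝ) (hs : 0 < s) (h : ℝ) (hh : 0 < h) (X : (Fin d → ℝ) → S d)
    (hX : ∀ v ∈ Icc (0 : Fin d → ℝ) 1, ∀ v' ∈ Icc (0 : Fin d → ℝ) 1,
      dist (X v) (X v') ≤ h * Real.sqrt (∑ k, (v k - v' k) ^ 2))
    {N : ℕ} (y : Fin N → S d) (hy : Function.Injective y) (T : Finset (Fin N))
    (hT : ∀ i ∈ T, y i ∈ X '' Icc (0 : Fin d → ℝ) 1) :
    h ^ (-s) * eC d s T.card ≤ ∑ i ∈ T, ∑ j, K s (y i) (y j) := by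
  classical
  choose! v hv hXv using hT
  let e : Fin T.card ≃ T := T.equivFin.symm
  let w : Fin T.card → Fin d → ℝ := fun a => v (e a)
  have hwI : ∀ a, w a ∈ Icc (0 : Fin d → ℝ) 1 := fun a => hv _ (e a).2
  have hXw : ∀ a, X (w a) = y (e a) := fun a => hXv _ (e a).2
  have hw : Function.Injective w := by
    intro a b hab
    have h1 : y (e a) = y (e b) := by rw [← hXw, ← hXw, hab]
    exact e.injective (Subtype.ext (hy h1))
  have h1 : eC d s T.card ≤ EnC d s w :=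
    eC_le d s w hw fun a k => ⟨(hwI a).1 k, (hwI a).2 k⟩
  have h2 : h ^ (-s) * EnC d s w ≤ ∑ a, ∑ b, K s (y (e a)) (y (e b)) := by
    unfold EnC
    rw [Finset.mul_sum]
    refine Finset.sum_le_sum fun a _ => ?_
    rw [Finset.mul_sum]
    calc _ ≤ ∑ b ∈ Finset.univ.erase a, K s (y (e a)) (y (e b)) := by
          refine Finset.sum_le_sum fun b hb => ?_
          have hab : b ≠ a := (Finset.mem_erase.1 hb).1
          have hd := hX (w a) (hwI a) (w b) (hwI b)
          rw [hXw, hXw] at hd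
          have hpos : 0 < dist (y (e a)) (y (e b)) := by
            rw [dist_pos]
            intro h'
            exact hab (e.injective (Subtype.ext (hy h'))).symm
          rw [← Real.mul_rpow hh.le (Real.sqrt_nonneg _)]
          exact Real.rpow_le_rpow_of_nonpos hpos hd (by linarith)
      _ ≤ _ := Finset.sum_le_sum_of_subset_of_nonneg (Finset.erase_subset _ _)
          fun _ _ _ => K_nonneg _ _ _
  have h3 : ∑ a, ∑ b, K s (y (e a)) (y (e b)) = ∑ i ∈ T, ∑ j ∈ T, K s (y i) (y j) := by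
    rw [← Finset.sum_coe_sort T]
    rw [Equiv.sum_comp e (fun i : T => ∑ b, K s (y i) (y (e b)))]
    refine Finset.sum_congr rfl fun i _ => ?_
    rw [← Finset.sum_coe_sort T]
    rw [Equiv.sum_comp e (fun j : T => K s (y i) (y j))]
  have h4 : ∑ i ∈ T, ∑ j ∈ T, K s (y i) (y j) ≤ ∑ i ∈ T, ∑ j, K s (y i) (y j) :=
    Finset.sum_le_sum fun i _ => Finset.sum_le_sum_of_subset_of_nonneg (Finset.subset_univ _)
      fun _ _ _ => K_nonneg _ _ _
  calc _ ≤ h ^ (-s) * EnC d s w := mul_le_mul_of_nonneg_left h1 (Real.rpow_nonneg hh.le _)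
    _ ≤ _ := h2
    _ = _ := h3
    _ ≤ _ := h4

/-- tangent line to `t ^ q` -/
theorem tangent (q a t : ℝ) (hq : 1 ≤ q) (ha : 0 < a) (ht : 0 ≤ t) :
    a ^ q + q * a ^ (q - 1) * (t - a) ≤ t ^ q := by
  have h1 := one_add_mul_self_le_rpow_one_add (s := (t - a) / a) (p := q)
    (by rw [le_div_iff₀ ha]; linarith) hq
  have h2 : 1 + (t - a) / a = t / a := by field_simp; ring
  rw [h2, Real.div_rpow ht ha.le, le_div_iff₀ (Real.rpow_pos_of_pos ha q)] at h1
  have h3 : a ^ (q - 1) = a ^ q / a := by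
    rw [Real.rpow_sub ha, Real.rpow_one]
  rw [h3]
  calc a ^ q + q * (a ^ q / a) * (t - a) = (1 + q * ((t - a) / a)) * a ^ q := by
        field_simp
    _ ≤ _ := h1

/-- the averaging inequality -/
theorem average (d : ℕ) (A : Set (S d)) (hA : MeasurableSet A) {N : ℕ} (x : Fin N → S d)
    (e : Fin N → ℝ) (α β : ℝ)
    (h : ∀ g : Iso d, ∀ T : Finset (Fin N), (∀ i, i ∈ T ↔ rot g (x i) ∈ A) →
      α + β * T.card ≤ ∑ i ∈ T, e i) :
    α + β * (N * (sg d).real A) ≤ (sg d).real A * ∑ i, e i := by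
  classical
  obtain ⟨Ω, mΩ, P, G, hP, hG, hlaw⟩ := exists_haar d
  haveI := sg_prob d
  let I : Fin N → Ω → ℝ := fun i ω => A.indicator (fun _ => (1:ℝ)) (rot (G ω) (x i))
  have hm : ∀ i, Measurable (fun ω => rot (G ω) (x i)) := fun i =>
    hG.comp (measurable_id.prodMk measurable_const)
  have hIm : ∀ i, Measurable (I i) := fun i => (measurable_const.indicator hA).comp (hm i)
  have hIint : ∀ i, Integrable (I i) P := by
    intro i
    refine Integrable.of_bound (hIm i).aestronglyMeasurable 1 (Eventually.of_forall fun ω => ?_)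
    simp only [I, indicator]
    split_ifs <;> simp
  have hI : ∀ i, ∫ ω, I i ω ∂P = (sg d).real A := by
    intro i
    have hms : MeasurableSet {ω | rot (G ω) (x i) ∈ A} := hm i hA
    have h1 : P {ω | rot (G ω) (x i) ∈ A} = sg d A := by
      have := hlaw (x i) (A.indicator 1) (measurable_one.indicator hA)
      rw [lintegral_indicator_one hA] at this
      rw [← this]
      have e : (fun ω => (A.indicator (1 : S d → ℝ≥0∞)) (rot (G ω) (x i))) =
          {ω | rot (G ω) (x i) ∈ A}.indicator 1 := by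
        funext ω
        simp [indicator]
      rw [e, lintegral_indicator_one hms]
    have h2 : I i = {ω | rot (G ω) (x i) ∈ A}.indicator (fun _ => (1:ℝ)) := by
      funext ω
      simp [I, indicator]
    rw [h2, integral_indicator_const _ hms, measureReal_def, h1, smul_eq_mul, mul_one,
      measureReal_def]
  have hpt : ∀ ω, α + β * ∑ i, I i ω ≤ ∑ i, I i ω * e i := by
    intro ω
    have h1 := h (G ω) (Finset.univ.filter fun i => rot (G ω) (x i) ∈ A) (by simp)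
    have h2 : ∑ i, I i ω = ((Finset.univ.filter fun i => rot (G ω) (x i) ∈ A).card : ℝ) := by
      simp [I, indicator, Finset.sum_ite]
    have h3 : ∑ i, I i ω * e i = ∑ i ∈ Finset.univ.filter fun i => rot (G ω) (x i) ∈ A, e i := by
      simp [I, indicator, Finset.sum_ite, ite_mul]
    rw [h2, h3]
    exact h1
  have h4 : ∫ ω, (α + β * ∑ i, I i ω) ∂P ≤ ∫ ω, ∑ i, I i ω * e i ∂P := by
    refine integral_mono ?_ ?_ hpt
    · exact (integrable_const _).add ((integrable_finsetSum _ fun i _ => hIint i).const_mul _)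
    · exact integrable_finsetSum _ fun i _ => (hIint i).mul_const _
  rw [integral_add (integrable_const _) ((integrable_finsetSum _ fun i _ => hIint i).const_mul _),
    integral_const, integral_const_mul, integral_finsetSum _ fun i _ => hIint i,
    integral_finsetSum _ fun i _ => (hIint i).mul_const _] at h4
  simp only [integral_mul_const, hI] at h4
  simp only [measureReal_def, measure_univ, ENNReal.toReal_one, one_smul, Finset.sum_const, Finset.card_univ,
    Fintype.card_fin, nsmul_eq_mul, ← Finset.mul_sum] at h4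
  exact h4

theorem sphere_low (d : ℕ)
    (hchart : ∀ (p : S d) (h : ℝ), 0 < h → h ≤ 1 →
      ∃ X : (Fin d → ℝ) → S d, Continuous X ∧
      (∀ v ∈ Icc (0 : Fin d → ℝ) 1, ∀ v' ∈ Icc (0 : Fin d → ℝ) 1,
        h / (1 + d * h ^ 2) * Real.sqrt (∑ k, (v k - v' k) ^ 2) ≤ dist (X v) (X v') ∧
        dist (X v) (X v') ≤ h * Real.sqrt (∑ k, (v k - v' k) ^ 2)) ∧
      X '' (Icc (0 : Fin d → ℝ) 1) ⊆ Metric.closedBall p (d * h) ∧
      Metric.closedBall p (h / 4) ⊆ X '' (Icc (0 : Fin d → ℝ) 1) ∧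
      h ^ d / om d * (1 + d * h ^ 2) ^ (-(((d:ℝ) + 1) / 2)) ≤
        (sg d).real (X '' (Icc (0 : Fin d → ℝ) 1)) ∧
      (sg d).real (X '' (Icc (0 : Fin d → ℝ) 1)) ≤ h ^ d / om d)
    (hd : 1 ≤ d) (s : ℝ) (hs : (d:ℝ) < s) (C : ℝ)
    (hC : Tendsto (fun N : ℕ => (N:ℝ) ^ (-1 - s / (d:ℝ)) * eC d s N) atTop (𝓝 C))
    (ε : ℝ) (hε : 0 < ε) :
    ∀ᶠ N : ℕ in atTop, ∀ x : Fin N → S d, Function.Injective x →
      (C * om d ^ (-s / (d:ℝ)) - ε) * (N:ℝ) ^ (1 + s / (d:ℝ)) ≤ En s x := by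
  have hdR : (1:ℝ) ≤ d := by exact_mod_cast hd
  have hd0 : (0:ℝ) < d := by linarith
  have hs0 : 0 < s := by linarith
  have hsd : 0 < s / d := by positivity
  set q : ℝ := 1 + s / (d:ℝ) with hq
  have hq1 : 1 ≤ q := by rw [hq]; linarith
  have hom : 0 < om d := by
    unfold om
    have := Real.Gamma_pos_of_pos (show (0:ℝ) < ((d:ℝ) + 1) / 2 by positivity)
    positivity
  set Om : ℝ := om d ^ (-s / (d:ℝ)) with hOm
  have hOm0 : 0 < Om := Real.rpow_pos_of_pos hom _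
  by_cases htriv : C * Om - ε ≤ 0
  · filter_upwards with N x _
    have h1 := En_nonneg s x
    have h2 : (C * Om - ε) * (N:ℝ) ^ q ≤ 0 :=
      mul_nonpos_of_nonpos_of_nonneg htriv (by positivity)
    linarith
  push Not at htriv
  -- choice of δ
  set δ : ℝ := ε / (4 * Om) with hδ
  have hδ0 : 0 < δ := by positivity
  have hδOm : δ * Om = ε / 4 := by rw [hδ]; field_simp
  have hCδ : 0 < C - δ := by
    have : 0 < (C - δ) * Om := by rw [sub_mul, hδOm]; linarith
    exact (mul_pos_iff_of_pos_right hOm0).1 this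
  -- choice of h
  set ex' : ℝ := ((d:ℝ) + 1) / 2 * (s / d) with hex'
  have hlim : Tendsto (fun h : ℝ => C * Om * (1 + d * h ^ 2) ^ (-ex')) (𝓝[>] 0) (𝓝 (C * Om)) := by
    have hc : ContinuousAt (fun h : ℝ => C * Om * (1 + d * h ^ 2) ^ (-ex')) 0 := by
      apply ContinuousAt.mul continuousAt_const
      apply ContinuousAt.rpow_const
      · fun_prop
      · left; simp
    have := hc.tendsto
    simp only [ne_eq, OfNat.ofNat_ne_zero, not_false_eq_true, zero_pow, mul_zero, add_zero,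
      Real.one_rpow, mul_one] at this
    exact this.mono_left nhdsWithin_le_nhds
  have hev : ∀ᶠ h : ℝ in 𝓝[>] 0, C * Om - ε / 4 < C * Om * (1 + d * h ^ 2) ^ (-ex') :=
    hlim.eventually (lt_mem_nhds (by linarith))
  have hev1 : ∀ᶠ h : ℝ in 𝓝[>] 0, h ∈ Ioo (0:ℝ) 1 := Ioo_mem_nhdsGT one_pos
  obtain ⟨h, hh1, hh2⟩ := (hev.and hev1).exists
  obtain ⟨hh0, hhle⟩ := hh2
  obtain ⟨C1, hC10, hC1⟩ := eC_low d s C (by positivity) hC δ hδ0
  obtain ⟨X, hXc, hXd, -, -, hXlow, -⟩ := hchart (nrm 0) h hh0 hhle.le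
  set A : Set (S d) := X '' (Icc (0 : Fin d → ℝ) 1) with hA
  have hAm : MeasurableSet A := (isCompact_Icc.image hXc).isClosed.measurableSet
  set sA : ℝ := (sg d).real A with hsA
  have hbase : 0 < 1 + d * h ^ 2 := by positivity
  have hlow0 : 0 < h ^ d / om d * (1 + d * h ^ 2) ^ (-(((d:ℝ) + 1) / 2)) := by positivity
  have hsA0 : 0 < sA := lt_of_lt_of_le hlow0 hXlow
  -- the constant
  have hconst : Om * (1 + d * h ^ 2) ^ (-ex') ≤ h ^ (-s) * sA ^ (s / d) := by
    have h1 : (h ^ d / om d * (1 + d * h ^ 2) ^ (-(((d:ℝ) + 1) / 2))) ^ (s / d) ≤ sA ^ (s / d) :=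
      Real.rpow_le_rpow hlow0.le hXlow hsd.le
    have h2 : (h ^ d / om d * (1 + d * h ^ 2) ^ (-(((d:ℝ) + 1) / 2))) ^ (s / d) =
        h ^ s * Om * (1 + d * h ^ 2) ^ (-ex') := by
      rw [Real.mul_rpow (by positivity) (by positivity), Real.div_rpow (by positivity) hom.le,
        ← Real.rpow_natCast h d, ← Real.rpow_mul hh0.le, ← Real.rpow_mul hbase.le]
      have e1 : (d:ℝ) * (s / d) = s := by field_simp
      have e2 : -(((d:ℝ) + 1) / 2) * (s / d) = -ex' := by rw [hex']; ring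
      have e3 : Om = (om d ^ (s / (d:ℝ)))⁻¹ := by
        rw [hOm, ← Real.rpow_neg hom.le]
        congr 1
        ring
      rw [e1, e2, e3]
      ring
    have h3 : h ^ (-s) * (h ^ s * Om * (1 + d * h ^ 2) ^ (-ex')) = Om * (1 + d * h ^ 2) ^ (-ex') := by
      rw [Real.rpow_neg hh0.le]
      have : h ^ s ≠ 0 := (Real.rpow_pos_of_pos hh0 s).ne'
      field_simp
    rw [← h3]
    exact mul_le_mul_of_nonneg_left (h2 ▸ h1) (Real.rpow_nonneg hh0.le _)
  -- large N
  have hlarge : ∀ᶠ N : ℕ in atTop, C1 * h ^ (-s) / sA ≤ ε / 2 * (N:ℝ) ^ q := by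
    have h1 : Tendsto (fun N : ℕ => ε / 2 * (N:ℝ) ^ q) atTop atTop :=
      ((tendsto_rpow_atTop (by linarith)).comp tendsto_natCast_atTop_atTop).const_mul_atTop
        (by positivity)
    exact h1.eventually_ge_atTop _
  filter_upwards [hlarge, eventually_ge_atTop 1] with N hN hN1 x hx
  have hNp : (0:ℝ) < N := by exact_mod_cast hN1
  set a : ℝ := N * sA with ha
  have ha0 : 0 < a := by positivity
  have hhs : 0 < h ^ (-s) := Real.rpow_pos_of_pos hh0 _
  have key := average d A hAm x (fun i => ∑ j, K s (x i) (x j))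
    (h ^ (-s) * ((C - δ) * (a ^ q - q * a ^ (q - 1) * a) - C1))
    (h ^ (-s) * ((C - δ) * (q * a ^ (q - 1)))) (by
      intro g T hT
      have hginj : Function.Injective (fun i => rot g (x i)) := by
        intro i j hij
        have : g (x i).1 = g (x j).1 := congrArg Subtype.val hij
        exact hx (Subtype.ext (g.injective this))
      have h1 := part_energy d s hs0 h hh0 X (fun v hv v' hv' => (hXd v hv v' hv').2)
        (fun i => rot g (x i)) hginj T (fun i hi => (hT i).1 hi)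
      have h2 : ∀ i j, K s (rot g (x i)) (rot g (x j)) = K s (x i) (x j) := by
        intro i j
        unfold K
        congr 1
        exact g.dist_map _ _
      simp only [h2] at h1
      refine le_trans ?_ h1
      have h3 := hC1 T.card
      have h4 := tangent q a T.card hq1 ha0 (Nat.cast_nonneg _)
      have h5 := mul_le_mul_of_nonneg_left h4 hCδ.le
      have h6 : (C - δ) * (a ^ q - q * a ^ (q - 1) * a) - C1 +
          (C - δ) * (q * a ^ (q - 1)) * T.card ≤ eC d s T.card := by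
        calc _ = (C - δ) * (a ^ q + q * a ^ (q - 1) * (T.card - a)) - C1 := by ring
          _ ≤ (C - δ) * (T.card:ℝ) ^ q - C1 := by linarith
          _ ≤ _ := h3
      calc _ = h ^ (-s) * ((C - δ) * (a ^ q - q * a ^ (q - 1) * a) - C1 +
          (C - δ) * (q * a ^ (q - 1)) * T.card) := by ring
        _ ≤ _ := mul_le_mul_of_nonneg_left h6 hhs.le)
  have key2 : h ^ (-s) * ((C - δ) * a ^ q - C1) ≤ sA * En s x := by
    have e1 : h ^ (-s) * ((C - δ) * (a ^ q - q * a ^ (q - 1) * a) - C1) +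
        h ^ (-s) * ((C - δ) * (q * a ^ (q - 1))) * (N * sA) = h ^ (-s) * ((C - δ) * a ^ q - C1) := by
      rw [← ha]; ring
    rw [e1] at key
    exact key
  have haq : a ^ q = N ^ q * (sA * sA ^ (s / d)) := by
    rw [ha, Real.mul_rpow hNp.le hsA0.le]
    congr 1
    rw [hq, Real.rpow_add hsA0, Real.rpow_one]
  have key3 : h ^ (-s) * sA ^ (s / d) * (C - δ) * N ^ q - C1 * h ^ (-s) / sA ≤ En s x := by
    rw [haq] at key2
    have e2 : h ^ (-s) * ((C - δ) * (N ^ q * (sA * sA ^ (s / d))) - C1) =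
        sA * (h ^ (-s) * sA ^ (s / d) * (C - δ) * N ^ q - C1 * h ^ (-s) / sA) := by
      field_simp
    rw [e2] at key2
    exact le_of_mul_le_mul_left key2 hsA0
  have hNq : 0 < (N:ℝ) ^ q := Real.rpow_pos_of_pos hNp _
  have h7 : C * Om - ε / 2 ≤ h ^ (-s) * sA ^ (s / d) * (C - δ) := by
    have h8 : (1 + d * h ^ 2) ^ (-ex') ≤ 1 := by
      apply Real.rpow_le_one_of_one_le_of_nonpos
      · nlinarith [sq_nonneg h]
      · have : 0 ≤ ex' := by positivity
        linarith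
    calc C * Om - ε / 2 ≤ C * Om * (1 + d * h ^ 2) ^ (-ex') - δ * Om := by rw [hδOm]; linarith
      _ ≤ C * Om * (1 + d * h ^ 2) ^ (-ex') - δ * Om * (1 + d * h ^ 2) ^ (-ex') := by
          have : δ * Om * (1 + d * h ^ 2) ^ (-ex') ≤ δ * Om * 1 :=
            mul_le_mul_of_nonneg_left h8 (by positivity)
          linarith
      _ = Om * (1 + d * h ^ 2) ^ (-ex') * (C - δ) := by ring
      _ ≤ _ := mul_le_mul_of_nonneg_right hconst hCδ.le
  have h9 := mul_le_mul_of_nonneg_right h7 hNq.le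
  calc (C * Om - ε) * (N:ℝ) ^ q = (C * Om - ε / 2) * (N:ℝ) ^ q - ε / 2 * (N:ℝ) ^ q := by ring
    _ ≤ h ^ (-s) * sA ^ (s / d) * (C - δ) * N ^ q - C1 * h ^ (-s) / sA := by linarith
    _ ≤ _ := key3

end Pool.Agent.TH617.RZ
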