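import Pool.Agent.TH617.RZ.J240
import Pool.Agent.Helper88.SE.P_ball_bound

set_option autoImplicit false

/-! Job RZ-D4 (241) for MP_d18e52_an (helper617). -/

open MeasureTheory Set Filter Topology
open scoped ENNReal NNReal Real FourierTransform

namespace Pool.Agent.TH617.RZ

open Pool.Agent.TH331.RZ Pool.Agent.Helper88.SE

theorem om_pos (d : ℕ) : 0 < om d := by
  unfold om
  have := Real.Gamma_pos_of_pos (show (0:ℝ) < ((d:ℝ) + 1) / 2 by positivity)
  positivity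

theorem eC_up (d : ℕ) (s C : ℝ) (hq : 0 < 1 + s / (d:ℝ))
    (hC : Tendsto (fun N : ℕ => (N:ℝ) ^ (-1 - s / (d:ℝ)) * eC d s N) atTop (𝓝 C))
    (δ : ℝ) (hδ : 0 < δ) (hCδ : 0 ≤ C + δ) :
    ∃ C2 : ℝ, 0 ≤ C2 ∧ ∀ k : ℕ, eC d s k ≤ (C + δ) * (k:ℝ) ^ (1 + s / (d:ℝ)) + C2 := by
  have h1 := hC.eventually (gt_mem_nhds (show C < C + δ by linarith))
  obtain ⟨K0, hK0⟩ := eventually_atTop.1 h1
  refine ⟨∑ k ∈ Finset.range (max K0 1), eC d s k,
    Finset.sum_nonneg fun k _ => eC_nonneg d s k, fun k => ?_⟩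
  by_cases hk : max K0 1 ≤ k
  · have hk0 : K0 ≤ k := (le_max_left _ _).trans hk
    have hk1 : 1 ≤ k := (le_max_right _ _).trans hk
    have hkp : (0:ℝ) < k := by exact_mod_cast hk1
    have h2 := (hK0 k hk0).le
    have h4 := mul_le_mul_of_nonneg_right h2 (Real.rpow_nonneg hkp.le (1 + s / (d:ℝ)))
    have h5 : (k:ℝ) ^ (-1 - s / (d:ℝ)) * eC d s k * (k:ℝ) ^ (1 + s / (d:ℝ)) = eC d s k := by
      have : (k:ℝ) ^ (-1 - s / (d:ℝ)) * (k:ℝ) ^ (1 + s / (d:ℝ)) = 1 := by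
        rw [← Real.rpow_add hkp]
        have : -1 - s / (d:ℝ) + (1 + s / (d:ℝ)) = 0 := by ring
        rw [this, Real.rpow_zero]
      calc _ = (k:ℝ) ^ (-1 - s / (d:ℝ)) * (k:ℝ) ^ (1 + s / (d:ℝ)) * eC d s k := by ring
        _ = _ := by rw [this, one_mul]
    rw [h5] at h4
    have : 0 ≤ ∑ k ∈ Finset.range (max K0 1), eC d s k :=
      Finset.sum_nonneg fun k _ => eC_nonneg d s k
    linarith
  · push Not at hk
    have h2 : eC d s k ≤ ∑ k ∈ Finset.range (max K0 1), eC d s k :=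
      Finset.single_le_sum (f := fun k => eC d s k) (fun k _ => eC_nonneg d s k)
        (Finset.mem_range.2 hk)
    have h3 : 0 ≤ (C + δ) * (k:ℝ) ^ (1 + s / (d:ℝ)) := by positivity
    linarith

/-- near optimal configurations in the cube -/
theorem cube_config (d : ℕ) (hd : 1 ≤ d) (s : ℝ) (n : ℕ) :
    ∃ v : Fin n → Fin d → ℝ, Function.Injective v ∧ (∀ i, v i ∈ Icc (0 : Fin d → ℝ) 1) ∧
      EnC d s v ≤ eC d s n + 1 := by
  have hne : Nonempty {x : Fin n → Fin d → ℝ //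
      Function.Injective x ∧ ∀ i k, 0 ≤ x i k ∧ x i k ≤ 1} := by
    refine ⟨⟨fun i _ => (i : ℝ) / n, ?_, ?_⟩⟩
    · intro i j hij
      have h1 := congrFun hij ⟨0, by omega⟩
      have hn : (0:ℝ) < n := by exact_mod_cast i.pos
      simp only at h1
      rw [div_left_inj' hn.ne'] at h1
      exact Fin.ext (by exact_mod_cast h1)
    · intro i _
      have hn : (0:ℝ) < n := by exact_mod_cast i.pos
      refine ⟨by positivity, ?_⟩
      rw [div_le_one hn]
      exact_mod_cast i.2.le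
  obtain ⟨x, hx⟩ := exists_lt_of_ciInf_lt (show eC d s n < eC d s n + 1 by linarith)
  exact ⟨x.1, x.2.1, fun i => ⟨fun k => (x.2.2 i k).1, fun k => (x.2.2 i k).2⟩, hx.le⟩

theorem sum_emb_le {α β : Type*} [Fintype α] [Fintype β] (e : α ↪ β) (f : β → ℝ)
    (hf : ∀ b, 0 ≤ f b) : ∑ a, f (e a) ≤ ∑ b, f b := by
  rw [← Finset.sum_map Finset.univ e f]
  exact Finset.sum_le_sum_of_subset_of_nonneg (Finset.subset_univ _) fun _ _ _ => hf _

/-- the packing -/
theorem packing (d : ℕ)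
    (hchart : ∀ (p : S d) (h : ℝ), 0 < h → h ≤ 1 →
      ∃ X : (Fin d → ℝ) → S d, Continuous X ∧
      (∀ v ∈ Icc (0 : Fin d → ℝ) 1, ∀ v' ∈ Icc (0 : Fin d → ℝ) 1,
        h / (1 + d * h ^ 2) * Real.sqrt (∑ k, (v k - v' k) ^ 2) ≤ dist (X v) (X v') ∧
        dist (X v) (X v') ≤ h * Real.sqrt (∑ k, (v k - v' k) ^ 2)) ∧
      X '' (Icc (0 : Fin d → ℝ) 1) ⊆ Metric.closedBall p (d * h) ∧
      Metric.closedBall p (h / 4) ⊆ X '' (Icc (0 : Fin d → ℝ) 1) ∧
      h ^ d / om d * (1 + d * h ^ 2) ^ (-(((d:ℝ) + 1) / 2)) ≤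
        (sg d).real (X '' (Icc (0 : Fin d → ℝ) 1)) ∧
      (sg d).real (X '' (Icc (0 : Fin d → ℝ) 1)) ≤ h ^ d / om d)
    (hd : 1 ≤ d) (δ : ℝ) (hδ : 0 < δ) (hδ1 : δ < 1) :
    ∃ (ι : Type) (_ : Fintype ι) (X : ι → (Fin d → ℝ) → S d) (h : ι → ℝ) (δ0 : ℝ), 0 < δ0 ∧
      (∀ k, 0 < h k ∧ h k ≤ δ) ∧
      (∀ k, ∀ v ∈ Icc (0 : Fin d → ℝ) 1, ∀ v' ∈ Icc (0 : Fin d → ℝ) 1,
        h k / (1 + d * h k ^ 2) * Real.sqrt (∑ j, (v j - v' j) ^ 2) ≤ dist (X k v) (X k v')) ∧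
      (∀ k l, k ≠ l → ∀ v ∈ Icc (0 : Fin d → ℝ) 1, ∀ v' ∈ Icc (0 : Fin d → ℝ) 1,
        δ0 ≤ dist (X k v) (X l v')) ∧
      (∀ k, 0 < (sg d).real (X k '' (Icc (0 : Fin d → ℝ) 1)) ∧
        (sg d).real (X k '' (Icc (0 : Fin d → ℝ) 1)) ≤ h k ^ d / om d) ∧
      1 - δ ≤ ∑ k, (sg d).real (X k '' (Icc (0 : Fin d → ℝ) 1)) ∧
      ∑ k, (sg d).real (X k '' (Icc (0 : Fin d → ℝ) 1)) ≤ 1 := by
  classical
  haveI := sg_prob d
  have hdR : (1:ℝ) ≤ d := by exact_mod_cast hd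
  have hom := om_pos d
  haveI : Nonempty (S d) := ⟨nrm 0⟩
  choose! X hXc hXd hXsub hXsup hXlow hXup using hchart
  obtain ⟨Cb, hCb, hball⟩ := ball_bound d
  let Q : Set (Fin d → ℝ) := Icc (0 : Fin d → ℝ) 1
  let B : S d × ℝ → Set (S d) := fun a => X a.1 a.2 '' Q
  let t : Set (S d × ℝ) := {a | 0 < a.2 ∧ a.2 ≤ δ}
  have htd : ∀ a ∈ t, 0 < a.2 ∧ a.2 ≤ 1 := fun a ha => ⟨ha.1, ha.2.trans hδ1.le⟩
  have hBcomp : ∀ a ∈ t, IsCompact (B a) := fun a ha =>
    isCompact_Icc.image (hXc a.1 a.2 (htd a ha).1 (htd a ha).2)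
  have hlow : ∀ a ∈ t, a.2 ^ d / om d * (1 + d : ℝ) ^ (-(((d:ℝ) + 1) / 2)) ≤ (sg d).real (B a) := by
    intro a ha
    obtain ⟨h0, h1⟩ := htd a ha
    refine le_trans ?_ (hXlow a.1 a.2 h0 h1)
    apply mul_le_mul_of_nonneg_left _ (by positivity)
    apply Real.rpow_le_rpow_of_nonpos (by positivity)
    · have h3 : a.2 ^ 2 ≤ 1 := by nlinarith
      have h4 : (d:ℝ) * a.2 ^ 2 ≤ d * 1 := mul_le_mul_of_nonneg_left h3 (by positivity)
      linarith
    · have : (0:ℝ) ≤ d := by positivity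
      linarith
  set Cc : ℝ := Cb * (3 * d) ^ d * (om d * (1 + d : ℝ) ^ (((d:ℝ) + 1) / 2)) with hCc
  have hCc0 : 0 ≤ Cc := by positivity
  obtain ⟨u, hut, huc, hud, hu0⟩ := Vitali.exists_disjoint_covering_ae (sg d) univ t
    (Real.toNNReal Cc) (fun a => d * a.2) (fun a => a.1) B
    (fun a ha => hXsub a.1 a.2 (htd a ha).1 (htd a ha).2)
    (by
      intro a ha
      obtain ⟨h0, h1⟩ := htd a ha
      have h2 := hball a.1 (3 * (d * a.2)) (by positivity)
      have h3 := hlow a ha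
      have h4 : Cb * (3 * (d * a.2)) ^ d ≤ Cc * (sg d).real (B a) := by
        have h5 := mul_le_mul_of_nonneg_left h3 hCc0
        refine le_trans (le_of_eq ?_) h5
        rw [hCc, Real.rpow_neg (by positivity)]
        have h6 : (1 + d : ℝ) ^ (((d:ℝ) + 1) / 2) ≠ 0 := by positivity
        field_simp
        rw [← mul_pow]
      have h5 : (sg d (Metric.closedBall a.1 (3 * (d * a.2)))).toReal ≤ Cc * (sg d).real (B a) :=
        h2.trans h4
      have h6 : sg d (Metric.closedBall a.1 (3 * (d * a.2))) =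
          ENNReal.ofReal (sg d (Metric.closedBall a.1 (3 * (d * a.2)))).toReal :=
        (ENNReal.ofReal_toReal (measure_ne_top _ _)).symm
      have h7 : sg d (B a) = ENNReal.ofReal ((sg d).real (B a)) :=
        (ENNReal.ofReal_toReal (measure_ne_top _ _)).symm
      rw [h6, h7]
      calc _ ≤ ENNReal.ofReal (Cc * (sg d).real (B a)) := ENNReal.ofReal_le_ofReal h5
        _ = _ := by rw [ENNReal.ofReal_mul hCc0]; rfl)
    (by
      intro a ha
      obtain ⟨h0, h1⟩ := htd a ha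
      have h2 : Metric.ball a.1 (a.2 / 4) ⊆ B a :=
        Metric.ball_subset_closedBall.trans (hXsup a.1 a.2 h0 h1)
      exact ⟨a.1, interior_maximal h2 Metric.isOpen_ball (Metric.mem_ball_self (by positivity))⟩)
    (fun a ha => (hBcomp a ha).isClosed)
    (by
      intro x _ ε hε
      refine ⟨(x, min δ (ε / d)), ⟨lt_min hδ (by positivity), min_le_left _ _⟩, ?_, rfl⟩
      calc (d:ℝ) * min δ (ε / d) ≤ d * (ε / d) :=
            mul_le_mul_of_nonneg_left (min_le_right _ _) (by positivity)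
        _ = ε := by field_simp)
  have hBm : ∀ a ∈ u, MeasurableSet (B a) := fun a ha => (hBcomp a (hut ha)).isClosed.measurableSet
  have htsum : ∑' a : u, sg d (B a) = 1 := by
    rw [← measure_biUnion huc hud hBm]
    have h1 : MeasurableSet (⋃ a ∈ u, B a) := MeasurableSet.biUnion huc hBm
    have h2 := measure_add_measure_compl (μ := sg d) h1
    rw [← Set.compl_eq_univ_sdiff] at hu0
    rw [hu0, add_zero, measure_univ] at h2
    exact h2
  have hlt : ENNReal.ofReal (1 - δ) < ∑' a : u, sg d (B a) := by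
    rw [htsum]
    rw [ENNReal.ofReal_lt_one]
    linarith
  rw [ENNReal.tsum_eq_iSup_sum, lt_iSup_iff] at hlt
  obtain ⟨F, hF⟩ := hlt
  have hFle : ∑ a ∈ F, sg d (B a) ≤ 1 := by
    rw [← htsum]
    exact ENNReal.sum_le_tsum F
  have hsumR : ∑ a ∈ F, (sg d).real (B a) = (∑ a ∈ F, sg d (B a)).toReal := by
    rw [ENNReal.toReal_sum (fun a _ => measure_ne_top _ _)]
    rfl
  -- distances
  have hdist : ∀ᶠ r : ℝ in 𝓝[>] 0, ∀ a b : F, a ≠ b → ∀ v ∈ Q, ∀ v' ∈ Q,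
      r ≤ dist (X a.1.1.1 a.1.1.2 v) (X b.1.1.1 b.1.1.2 v') := by
    rw [eventually_all]
    intro a
    rw [eventually_all]
    intro b
    by_cases hab : a = b
    · exact Eventually.of_forall fun r h => absurd hab h
    · have hdis : Disjoint (B a.1.1) (B b.1.1) := by
        apply hud a.1.2 b.1.2
        intro h'
        exact hab (Subtype.ext (Subtype.ext h'))
      obtain ⟨r, hr, hrd⟩ := Metric.exists_pos_forall_lt_edist (hBcomp _ (hut a.1.2))
        (hBcomp _ (hut b.1.2)).isClosed hdis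
      have hr' : (0:ℝ) < r := hr
      filter_upwards [Ioo_mem_nhdsGT hr'] with y hy _ v hv v' hv'
      have h1 := hrd _ (mem_image_of_mem _ hv) _ (mem_image_of_mem _ hv')
      rw [edist_nndist, ENNReal.coe_lt_coe] at h1
      have h2 : (r:ℝ) < dist (X a.1.1.1 a.1.1.2 v) (X b.1.1.1 b.1.1.2 v') := h1
      linarith [hy.2]
  obtain ⟨δ0, hδ0, hδ0'⟩ := (hdist.and self_mem_nhdsWithin).exists
  refine ⟨F, inferInstance, fun a => X a.1.1.1 a.1.1.2, fun a => a.1.1.2, δ0, hδ0',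
    fun a => hut a.1.2, ?_, hδ0, ?_, ?_, ?_⟩
  · intro a v hv v' hv'
    obtain ⟨h0, h1⟩ := htd _ (hut a.1.2)
    exact (hXd _ _ h0 h1 v hv v' hv').1
  · intro a
    obtain ⟨h0, h1⟩ := htd _ (hut a.1.2)
    refine ⟨lt_of_lt_of_le ?_ (hlow _ (hut a.1.2)), hXup _ _ h0 h1⟩
    positivity
  · have h1 : ∑ a : F, (sg d).real (B a.1.1) = ∑ a ∈ F, (sg d).real (B a) :=
      Finset.sum_coe_sort F (fun a : u => (sg d).real (B a))
    change 1 - δ ≤ ∑ a : F, (sg d).real (B a.1.1)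
    rw [h1, hsumR]
    exact (ENNReal.ofReal_le_iff_le_toReal (ne_top_of_le_ne_top ENNReal.one_ne_top hFle)).1 hF.le
  · have h1 : ∑ a : F, (sg d).real (B a.1.1) = ∑ a ∈ F, (sg d).real (B a) :=
      Finset.sum_coe_sort F (fun a : u => (sg d).real (B a))
    change ∑ a : F, (sg d).real (B a.1.1) ≤ 1
    rw [h1, hsumR]
    exact ENNReal.toReal_le_of_le_ofReal zero_le_one (by simpa using hFle)

/-- the total energy of the glued configuration -/
theorem glue_energy (d : ℕ) (s : ℝ) (hs : 0 < s) {ι : Type} [Fintype ι]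
    (X : ι → (Fin d → ℝ) → S d) (h : ι → ℝ) (δ0 δ : ℝ) (hδ0 : 0 < δ0)
    (hh : ∀ k, 0 < h k ∧ h k ≤ δ)
    (hX : ∀ k, ∀ v ∈ Icc (0 : Fin d → ℝ) 1, ∀ v' ∈ Icc (0 : Fin d → ℝ) 1,
        h k / (1 + d * h k ^ 2) * Real.sqrt (∑ j, (v j - v' j) ^ 2) ≤ dist (X k v) (X k v'))
    (hdist : ∀ k l, k ≠ l → ∀ v ∈ Icc (0 : Fin d → ℝ) 1, ∀ v' ∈ Icc (0 : Fin d → ℝ) 1,
        δ0 ≤ dist (X k v) (X l v'))
    (n : ι → ℕ) (v : ∀ k, Fin (n k) → Fin d → ℝ) (hv : ∀ k, Function.Injective (v k))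
    (hv1 : ∀ k i, v k i ∈ Icc (0 : Fin d → ℝ) 1) (N : ℕ) (hN : N ≤ ∑ k, n k) :
    ∃ x : Fin N → S d, Function.Injective x ∧
      En s x ≤ (1 + d * δ ^ 2) ^ s * ∑ k, h k ^ (-s) * EnC d s (v k) +
        (∑ k, (n k : ℝ)) ^ 2 * δ0 ^ (-s) := by
  classical
  let y : (Σ k, Fin (n k)) → S d := fun p => X p.1 (v p.1 p.2)
  have hbase : ∀ k, 0 < 1 + (d:ℝ) * h k ^ 2 := fun k => by positivity
  have hinj_same : ∀ k i j, X k (v k i) = X k (v k j) → i = j := by
    intro k i j hij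
    have h1 := hX k _ (hv1 k i) _ (hv1 k j)
    rw [hij, dist_self] at h1
    have h2 : 0 < h k / (1 + d * h k ^ 2) := div_pos (hh k).1 (hbase k)
    have h3 : Real.sqrt (∑ a, (v k i a - v k j a) ^ 2) = 0 := by
      apply le_antisymm _ (Real.sqrt_nonneg _)
      by_contra hcon
      push Not at hcon
      have := mul_pos h2 hcon
      linarith
    rw [Real.sqrt_eq_zero (Finset.sum_nonneg fun _ _ => sq_nonneg _),
      Finset.sum_eq_zero_iff_of_nonneg fun _ _ => sq_nonneg _] at h3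
    apply hv k
    funext a
    have := h3 a (Finset.mem_univ _)
    exact sub_eq_zero.1 (pow_eq_zero_iff (two_ne_zero) |>.1 this)
  have hy : Function.Injective y := by
    rintro ⟨k, i⟩ ⟨l, j⟩ hkl
    by_cases hne : k = l
    · subst hne
      have := hinj_same k i j hkl
      rw [this]
    · have h1 := hdist k l hne _ (hv1 k i) _ (hv1 l j)
      have h2 : X k (v k i) = X l (v l j) := hkl
      rw [h2, dist_self] at h1
      linarith
  obtain ⟨e⟩ : Nonempty (Fin N ↪ Σ k, Fin (n k)) := by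
    apply Function.Embedding.nonempty_of_card_le
    simpa using hN
  refine ⟨fun a => y (e a), hy.comp e.injective, ?_⟩
  have h1 : En s (fun a => y (e a)) ≤ ∑ p, ∑ q, K s (y p) (y q) := by
    unfold En
    refine le_trans (Finset.sum_le_sum fun a _ => sum_emb_le e (fun q => K s (y (e a)) (y q))
      fun _ => K_nonneg _ _ _) ?_
    exact sum_emb_le e (fun p => ∑ q, K s (y p) (y q))
      fun _ => Finset.sum_nonneg fun _ _ => K_nonneg _ _ _
  refine h1.trans ?_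
  have hδ0s : 0 ≤ δ0 ^ (-s) := Real.rpow_nonneg hδ0.le _
  have h2 : ∀ (k : ι) (i : Fin (n k)), ∑ q : (Σ k, Fin (n k)), K s (X k (v k i)) (y q) ≤
      ∑ j, K s (X k (v k i)) (X k (v k j)) + (∑ l, (n l : ℝ)) * δ0 ^ (-s) := by
    intro k i
    rw [Fintype.sum_sigma]
    have h3 : ∀ l, ∑ j, K s (X k (v k i)) (y ⟨l, j⟩) ≤
        (if l = k then ∑ j, K s (X k (v k i)) (X k (v k j)) else 0) + (n l : ℝ) * δ0 ^ (-s) := by
      intro l
      by_cases hlk : l = k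
      · subst hlk
        rw [if_pos rfl]
        have : 0 ≤ (n l : ℝ) * δ0 ^ (-s) := by positivity
        change ∑ j, K s (X l (v l i)) (X l (v l j)) ≤ _
        linarith
      · rw [if_neg hlk, zero_add]
        calc ∑ j, K s (X k (v k i)) (y ⟨l, j⟩) ≤ ∑ _j : Fin (n l), δ0 ^ (-s) := by
              refine Finset.sum_le_sum fun j _ => ?_
              have h4 := hdist k l (Ne.symm hlk) _ (hv1 k i) _ (hv1 l j)
              exact Real.rpow_le_rpow_of_nonpos hδ0 h4 (by linarith)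
          _ = _ := by simp
    refine le_trans (Finset.sum_le_sum fun l _ => h3 l) ?_
    rw [Finset.sum_add_distrib, Finset.sum_ite_eq' Finset.univ k, if_pos (Finset.mem_univ _),
      Finset.sum_mul]
  have h3 : ∀ k, ∑ i, ∑ j, K s (X k (v k i)) (X k (v k j)) ≤
      (1 + d * δ ^ 2) ^ s * (h k ^ (-s) * EnC d s (v k)) := by
    intro k
    unfold EnC
    rw [← mul_assoc, Finset.mul_sum]
    refine Finset.sum_le_sum fun i _ => ?_
    rw [Finset.mul_sum]
    rw [← Finset.add_sum_erase _ _ (Finset.mem_univ i)]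
    have h4 : K s (X k (v k i)) (X k (v k i)) = 0 := by
      unfold K
      rw [dist_self, Real.zero_rpow (by linarith)]
    rw [h4, zero_add]
    refine Finset.sum_le_sum fun j hj => ?_
    have hij : j ≠ i := (Finset.mem_erase.1 hj).1
    have h5 := hX k _ (hv1 k i) _ (hv1 k j)
    have hhk := (hh k).1
    have hD : 0 < Real.sqrt (∑ a, (v k i a - v k j a) ^ 2) := by
      apply lt_of_le_of_ne (Real.sqrt_nonneg _)
      intro h6
      have h6 := h6.symm
      rw [Real.sqrt_eq_zero (Finset.sum_nonneg fun _ _ => sq_nonneg _),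
        Finset.sum_eq_zero_iff_of_nonneg fun _ _ => sq_nonneg _] at h6
      apply hij
      apply hv k
      funext a
      have := h6 a (Finset.mem_univ _)
      exact (sub_eq_zero.1 (pow_eq_zero_iff (two_ne_zero) |>.1 this)).symm
    have h7 : 0 < h k / (1 + d * h k ^ 2) := div_pos hhk (hbase k)
    unfold K
    calc dist (X k (v k i)) (X k (v k j)) ^ (-s)
        ≤ (h k / (1 + d * h k ^ 2) * Real.sqrt (∑ a, (v k i a - v k j a) ^ 2)) ^ (-s) :=
          Real.rpow_le_rpow_of_nonpos (mul_pos h7 hD) h5 (by linarith)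
      _ = (1 + d * h k ^ 2) ^ s * h k ^ (-s) *
            Real.sqrt (∑ a, (v k i a - v k j a) ^ 2) ^ (-s) := by
          rw [Real.mul_rpow h7.le hD.le, Real.div_rpow hhk.le (hbase k).le,
            Real.rpow_neg (hbase k).le, div_inv_eq_mul]
          ring
      _ ≤ _ := by
          apply mul_le_mul_of_nonneg_right _ (Real.rpow_nonneg (Real.sqrt_nonneg _) _)
          apply mul_le_mul_of_nonneg_right _ (Real.rpow_nonneg hhk.le _)
          apply Real.rpow_le_rpow (hbase k).le _ hs.le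
          have h8 : h k ^ 2 ≤ δ ^ 2 := pow_le_pow_left₀ hhk.le (hh k).2 2
          have h9 : (d:ℝ) * h k ^ 2 ≤ d * δ ^ 2 := mul_le_mul_of_nonneg_left h8 (by positivity)
          linarith
  rw [Fintype.sum_sigma]
  calc ∑ k, ∑ i, ∑ q, K s (y ⟨k, i⟩) (y q)
      ≤ ∑ k, ∑ i : Fin (n k), (∑ j, K s (X k (v k i)) (X k (v k j)) +
          (∑ l, (n l : ℝ)) * δ0 ^ (-s)) :=
        Finset.sum_le_sum fun k _ => Finset.sum_le_sum fun i _ => h2 k i
    _ = ∑ k, ∑ i, ∑ j, K s (X k (v k i)) (X k (v k j)) + (∑ k, (n k : ℝ)) ^ 2 * δ0 ^ (-s) := by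
        simp only [Finset.sum_add_distrib, Finset.sum_const, Finset.card_univ, Fintype.card_fin,
          nsmul_eq_mul]
        rw [← Finset.sum_mul]
        ring
    _ ≤ ∑ k, (1 + d * δ ^ 2) ^ s * (h k ^ (-s) * EnC d s (v k)) +
          (∑ k, (n k : ℝ)) ^ 2 * δ0 ^ (-s) := by
        have := Finset.sum_le_sum fun k (_ : k ∈ Finset.univ) => h3 k
        linarith
    _ = _ := by rw [Finset.mul_sum]

theorem sphere_up (d : ℕ)
    (hchart : ∀ (p : S d) (h : ℝ), 0 < h → h ≤ 1 →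
      ∃ X : (Fin d → ℝ) → S d, Continuous X ∧
      (∀ v ∈ Icc (0 : Fin d → ℝ) 1, ∀ v' ∈ Icc (0 : Fin d → ℝ) 1,
        h / (1 + d * h ^ 2) * Real.sqrt (∑ k, (v k - v' k) ^ 2) ≤ dist (X v) (X v') ∧
        dist (X v) (X v') ≤ h * Real.sqrt (∑ k, (v k - v' k) ^ 2)) ∧
      X '' (Icc (0 : Fin d → ℝ) 1) ⊆ Metric.closedBall p (d * h) ∧
      Metric.closedBall p (h / 4) ⊆ X '' (Icc (0 : Fin d → ℝ) 1) ∧
      h ^ d / om d * (1 + d * h ^ 2) ^ (-(((d:ℝ) + 1) / 2)) ≤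
        (sg d).real (X '' (Icc (0 : Fin d → ℝ) 1)) ∧
      (sg d).real (X '' (Icc (0 : Fin d → ℝ) 1)) ≤ h ^ d / om d)
    (hd : 1 ≤ d) (s : ℝ) (hs : (d:ℝ) < s) (C : ℝ)
    (hC : Tendsto (fun N : ℕ => (N:ℝ) ^ (-1 - s / (d:ℝ)) * eC d s N) atTop (𝓝 C))
    (ε : ℝ) (hε : 0 < ε) :
    ∀ᶠ N : ℕ in atTop, ∃ x : Fin N → S d, Function.Injective x ∧
      En s x ≤ (C * om d ^ (-s / (d:ℝ)) + ε) * (N:ℝ) ^ (1 + s / (d:ℝ)) := by
  classical
  have hdR : (1:ℝ) ≤ d := by exact_mod_cast hd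
  have hd0 : (0:ℝ) < d := by linarith
  have hs0 : 0 < s := by linarith
  have hsd : 1 < s / d := (one_lt_div hd0).2 hs
  set q : ℝ := 1 + s / (d:ℝ) with hq
  have hq2 : 2 < q := by rw [hq]; linarith
  have hom := om_pos d
  set Om : ℝ := om d ^ (-s / (d:ℝ)) with hOm
  have hOm0 : 0 < Om := Real.rpow_pos_of_pos hom _
  have hC0 : 0 ≤ C := ge_of_tendsto hC (Eventually.of_forall fun N => by
    have := eC_nonneg d s N
    positivity)
  -- choice of δ
  have hlim : Tendsto (fun δ : ℝ => (1 + d * δ ^ 2) ^ s * (C + δ) * (1 + δ) *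
      (1 - δ) ^ (-q) * Om) (𝓝[>] 0) (𝓝 (C * Om)) := by
    have hc : ContinuousAt (fun δ : ℝ => (1 + d * δ ^ 2) ^ s * (C + δ) * (1 + δ) *
      (1 - δ) ^ (-q) * Om) 0 := by
      have c1 : ContinuousAt (fun δ : ℝ => (1 + d * δ ^ 2) ^ s) 0 := by
        apply ContinuousAt.rpow_const
        · fun_prop
        · left; simp
      have c2 : ContinuousAt (fun δ : ℝ => (1 - δ) ^ (-q)) 0 := by
        apply ContinuousAt.rpow_const
        · fun_prop
        · left; simp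
      exact (((c1.mul (by fun_prop)).mul (by fun_prop)).mul c2).mul continuousAt_const
    have := hc.tendsto
    simp only [ne_eq, OfNat.ofNat_ne_zero, not_false_eq_true, zero_pow, mul_zero, add_zero,
      Real.one_rpow, mul_one, one_mul, sub_zero] at this
    exact this.mono_left nhdsWithin_le_nhds
  have hev : ∀ᶠ δ : ℝ in 𝓝[>] 0, (1 + d * δ ^ 2) ^ s * (C + δ) * (1 + δ) *
      (1 - δ) ^ (-q) * Om < C * Om + ε / 2 := hlim.eventually (gt_mem_nhds (by linarith))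
  have hev1 : ∀ᶠ δ : ℝ in 𝓝[>] 0, δ ∈ Ioo (0:ℝ) (1/2) := Ioo_mem_nhdsGT (by norm_num)
  obtain ⟨δ, hφ, hδ0', hδ1'⟩ := (hev.and hev1).exists
  have hδ1 : δ < 1 := by linarith
  have h1δ : 0 < 1 - δ := by linarith
  obtain ⟨ι, _, X, h, δ0, hδ0, hh, hX, hdist, hm, hsum1, hsum2⟩ :=
    packing d hchart hd δ hδ0' hδ1
  set m : ι → ℝ := fun k => (sg d).real (X k '' (Icc (0 : Fin d → ℝ) 1)) with hmdef
  obtain ⟨C2, hC20, hC2⟩ := eC_up d s C (by positivity) hC δ hδ0' (by linarith)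
  set Λ : ℝ := (1 + d * δ ^ 2) ^ s with hΛ
  have hΛ0 : 0 < Λ := by positivity
  set D : ℝ := Λ * ∑ k, h k ^ (-s) * (C2 + 1) with hD
  have hhs : ∀ k, 0 < h k ^ (-s) := fun k => Real.rpow_pos_of_pos (hh k).1 _
  have hD0 : 0 ≤ D := by
    apply mul_nonneg hΛ0.le
    exact Finset.sum_nonneg fun k _ => mul_nonneg (hhs k).le (by linarith)
  set κ : ℝ := δ0 ^ (-s) with hκ
  have hκ0 : 0 < κ := Real.rpow_pos_of_pos hδ0 _
  -- number of points
  let n : ℕ → ι → ℕ := fun N k => ⌈(N:ℝ) * m k / (1 - δ)⌉₊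
  have hnup : ∀ N k, (n N k : ℝ) ≤ N * m k / (1 - δ) + 1 := by
    intro N k
    have h0 : 0 ≤ (N:ℝ) * m k / (1 - δ) := by
      have := (hm k).1.le
      positivity
    exact (Nat.ceil_lt_add_one h0).le
  have hnlow : ∀ N, N ≤ ∑ k, n N k := by
    intro N
    have h1 : (N:ℝ) ≤ ∑ k, (n N k : ℝ) := by
      calc (N:ℝ) ≤ ∑ k, (N:ℝ) * m k / (1 - δ) := by
            rw [← Finset.sum_div, ← Finset.mul_sum, le_div_iff₀ h1δ]
            exact mul_le_mul_of_nonneg_left hsum1 (Nat.cast_nonneg _)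
        _ ≤ _ := Finset.sum_le_sum fun k _ => Nat.le_ceil _
    exact_mod_cast h1
  have hnsum : ∀ N, ∑ k, (n N k : ℝ) ≤ 2 * N + Fintype.card ι := by
    intro N
    calc ∑ k, (n N k : ℝ) ≤ ∑ k, ((N:ℝ) * m k / (1 - δ) + 1) :=
          Finset.sum_le_sum fun k _ => hnup N k
      _ = N * (∑ k, m k) / (1 - δ) + Fintype.card ι := by
          rw [Finset.sum_add_distrib, ← Finset.sum_div, ← Finset.mul_sum]
          simp
      _ ≤ _ := by
          have h1 : (N:ℝ) * (∑ k, m k) / (1 - δ) ≤ 2 * N := by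
            rw [div_le_iff₀ h1δ]
            have h2 : (N:ℝ) * (∑ k, m k) ≤ N * 1 :=
              mul_le_mul_of_nonneg_left hsum2 (Nat.cast_nonneg _)
            have h3 : (0:ℝ) ≤ N := Nat.cast_nonneg _
            nlinarith
          linarith
  -- large N
  have hl1 : ∀ᶠ N : ℕ in atTop, ∀ k, (n N k : ℝ) ^ q ≤
      (1 + δ) * ((N:ℝ) * m k / (1 - δ)) ^ q := by
    rw [eventually_all]
    intro k
    have hmk := (hm k).1
    have hlim2 : Tendsto (fun t : ℝ => (1 + t⁻¹) ^ q) atTop (𝓝 1) := by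
      have h1 : Tendsto (fun t : ℝ => 1 + t⁻¹) atTop (𝓝 (1 + 0)) :=
        tendsto_const_nhds.add tendsto_inv_atTop_zero
      rw [add_zero] at h1
      have h2 := h1.rpow_const (p := q) (Or.inl one_ne_zero)
      rwa [Real.one_rpow] at h2
    have hlim3 : Tendsto (fun N : ℕ => (N:ℝ) * m k / (1 - δ)) atTop atTop := by
      have h1 : Tendsto (fun N : ℕ => (N:ℝ) * (m k / (1 - δ))) atTop atTop :=
        tendsto_natCast_atTop_atTop.atTop_mul_const (by positivity)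
      refine h1.congr fun N => ?_
      ring
    have h3 := (hlim2.comp hlim3).eventually (gt_mem_nhds (show (1:ℝ) < 1 + δ by linarith))
    have h4 := hlim3.eventually_gt_atTop 0
    filter_upwards [h3, h4] with N h3 h4
    have h5 : (n N k : ℝ) ≤ (1 + ((N:ℝ) * m k / (1 - δ))⁻¹) * ((N:ℝ) * m k / (1 - δ)) := by
      refine (hnup N k).trans (le_of_eq ?_)
      rw [add_mul, inv_mul_cancel₀ h4.ne']
      ring
    calc (n N k : ℝ) ^ q ≤ ((1 + ((N:ℝ) * m k / (1 - δ))⁻¹) * ((N:ℝ) * m k / (1 - δ))) ^ q :=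
          Real.rpow_le_rpow (Nat.cast_nonneg _) h5 (by linarith)
      _ = (1 + ((N:ℝ) * m k / (1 - δ))⁻¹) ^ q * ((N:ℝ) * m k / (1 - δ)) ^ q :=
          Real.mul_rpow (by positivity) h4.le
      _ ≤ _ := mul_le_mul_of_nonneg_right h3.le (Real.rpow_nonneg h4.le _)
  have hl2 : ∀ᶠ N : ℕ in atTop, D + (2 * N + Fintype.card ι : ℝ) ^ 2 * κ ≤
      ε / 2 * (N:ℝ) ^ q := by
    have h1 : Tendsto (fun N : ℕ => ε / 2 * (N:ℝ) ^ (q - 2)) atTop atTop :=
      ((tendsto_rpow_atTop (by linarith)).comp tendsto_natCast_atTop_atTop).const_mul_atTop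
        (by positivity)
    filter_upwards [h1.eventually_ge_atTop (D + 9 * κ), eventually_ge_atTop 1,
      eventually_ge_atTop (Fintype.card ι)] with N h2 h3 h4
    have hNp : (1:ℝ) ≤ N := by exact_mod_cast h3
    have h4' : (Fintype.card ι : ℝ) ≤ N := by exact_mod_cast h4
    have h5 : (N:ℝ) ^ q = (N:ℝ) ^ (q - 2) * (N:ℝ) ^ 2 := by
      rw [← Real.rpow_natCast (N:ℝ) 2, ← Real.rpow_add (by linarith)]
      congr 1
      push_cast
      ring
    have h6 : (2 * N + Fintype.card ι : ℝ) ^ 2 ≤ 9 * (N:ℝ) ^ 2 := by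
      have : (2 * N + Fintype.card ι : ℝ) ≤ 3 * N := by linarith
      calc (2 * N + Fintype.card ι : ℝ) ^ 2 ≤ (3 * N : ℝ) ^ 2 :=
            pow_le_pow_left₀ (by positivity) this 2
        _ = _ := by ring
    have h7 : D ≤ D * (N:ℝ) ^ 2 := le_mul_of_one_le_right hD0 (one_le_pow₀ hNp)
    calc D + (2 * N + Fintype.card ι : ℝ) ^ 2 * κ ≤ D * (N:ℝ) ^ 2 + 9 * (N:ℝ) ^ 2 * κ := by
          have := mul_le_mul_of_nonneg_right h6 hκ0.le
          linarith
      _ = (D + 9 * κ) * (N:ℝ) ^ 2 := by ring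
      _ ≤ ε / 2 * (N:ℝ) ^ (q - 2) * (N:ℝ) ^ 2 := mul_le_mul_of_nonneg_right h2 (by positivity)
      _ = _ := by rw [h5]; ring
  filter_upwards [hl1, hl2, eventually_ge_atTop 1] with N hN1 hN2 hN3
  have hNp : (0:ℝ) < N := by exact_mod_cast hN3
  choose v hv hv1 hvE using fun k : ι => cube_config d hd s (n N k)
  obtain ⟨x, hx, hxE⟩ := glue_energy d s hs0 X h δ0 δ hδ0 hh hX hdist (n N) v hv hv1 N (hnlow N)
  refine ⟨x, hx, hxE.trans ?_⟩
  have hNq : 0 < (N:ℝ) ^ q := Real.rpow_pos_of_pos hNp _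
  have h10 : ∀ k, h k ^ (-s) * EnC d s (v k) ≤
      (C + δ) * (1 + δ) * (1 - δ) ^ (-q) * Om * (N:ℝ) ^ q * m k + h k ^ (-s) * (C2 + 1) := by
    intro k
    have hmk := (hm k).1
    have hmk2 := (hm k).2
    have hhk := (hh k).1
    have e1 : EnC d s (v k) ≤ (C + δ) * ((1 + δ) * ((N:ℝ) * m k / (1 - δ)) ^ q) + (C2 + 1) := by
      have h1 := hvE k
      have h2 := hC2 (n N k)
      have h3 := mul_le_mul_of_nonneg_left (hN1 k) (show 0 ≤ C + δ by linarith)
      linarith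
    have e2 : ((N:ℝ) * m k / (1 - δ)) ^ q = (N:ℝ) ^ q * (m k * m k ^ (s / d)) * (1 - δ) ^ (-q) := by
      rw [Real.div_rpow (by positivity) h1δ.le, Real.mul_rpow hNp.le hmk.le,
        Real.rpow_neg h1δ.le]
      have : m k ^ q = m k * m k ^ (s / d) := by
        rw [hq, Real.rpow_add hmk, Real.rpow_one]
      rw [this]
      ring
    have e3 : h k ^ (-s) * m k ^ (s / d) ≤ Om := by
      have h1 : m k ^ (s / d) ≤ (h k ^ d / om d) ^ (s / d) :=
        Real.rpow_le_rpow hmk.le hmk2 (by positivity)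
      have h2 : (h k ^ d / om d) ^ (s / d) = h k ^ s * Om := by
        rw [Real.div_rpow (by positivity) hom.le, ← Real.rpow_natCast (h k) d,
          ← Real.rpow_mul hhk.le]
        have e1 : (d:ℝ) * (s / d) = s := by field_simp
        have e3 : Om = (om d ^ (s / (d:ℝ)))⁻¹ := by
          rw [hOm, ← Real.rpow_neg hom.le]
          congr 1
          ring
        rw [e1, e3]
        ring
      rw [h2] at h1
      calc h k ^ (-s) * m k ^ (s / d) ≤ h k ^ (-s) * (h k ^ s * Om) :=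
            mul_le_mul_of_nonneg_left h1 (hhs k).le
        _ = Om := by
            rw [Real.rpow_neg hhk.le]
            have : h k ^ s ≠ 0 := (Real.rpow_pos_of_pos hhk s).ne'
            field_simp
    have hP : 0 ≤ (C + δ) * (1 + δ) * (1 - δ) ^ (-q) * (N:ℝ) ^ q * m k := by
      have : 0 ≤ C + δ := by linarith
      positivity
    calc h k ^ (-s) * EnC d s (v k)
        ≤ h k ^ (-s) * ((C + δ) * ((1 + δ) * ((N:ℝ) * m k / (1 - δ)) ^ q) + (C2 + 1)) :=
          mul_le_mul_of_nonneg_left e1 (hhs k).le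
      _ = (C + δ) * (1 + δ) * (1 - δ) ^ (-q) * (N:ℝ) ^ q * m k * (h k ^ (-s) * m k ^ (s / d)) +
            h k ^ (-s) * (C2 + 1) := by
          rw [e2]; ring
      _ ≤ (C + δ) * (1 + δ) * (1 - δ) ^ (-q) * (N:ℝ) ^ q * m k * Om +
            h k ^ (-s) * (C2 + 1) := by
          have := mul_le_mul_of_nonneg_left e3 hP
          linarith
      _ = _ := by ring
  have h11 : ∑ k, h k ^ (-s) * EnC d s (v k) ≤
      (C + δ) * (1 + δ) * (1 - δ) ^ (-q) * Om * (N:ℝ) ^ q + ∑ k, h k ^ (-s) * (C2 + 1) := by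
    refine (Finset.sum_le_sum fun k _ => h10 k).trans ?_
    rw [Finset.sum_add_distrib, ← Finset.mul_sum]
    have hP : 0 ≤ (C + δ) * (1 + δ) * (1 - δ) ^ (-q) * Om * (N:ℝ) ^ q := by
      have : 0 ≤ C + δ := by linarith
      positivity
    have := mul_le_mul_of_nonneg_left hsum2 hP
    rw [mul_one] at this
    linarith
  have h12 : (∑ k, (n N k : ℝ)) ^ 2 * κ ≤ (2 * N + Fintype.card ι : ℝ) ^ 2 * κ :=
    mul_le_mul_of_nonneg_right (pow_le_pow_left₀ (Finset.sum_nonneg fun _ _ => Nat.cast_nonneg _)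
      (hnsum N) 2) hκ0.le
  have h13 := mul_le_mul_of_nonneg_left h11 hΛ0.le
  have h14 := mul_le_mul_of_nonneg_right hφ.le hNq.le
  have h15 : Λ * ((C + δ) * (1 + δ) * (1 - δ) ^ (-q) * Om * (N:ℝ) ^ q +
      ∑ k, h k ^ (-s) * (C2 + 1)) =
      Λ * (C + δ) * (1 + δ) * (1 - δ) ^ (-q) * Om * (N:ℝ) ^ q + D := by
    rw [hD]; ring
  rw [h15] at h13
  calc Λ * ∑ k, h k ^ (-s) * EnC d s (v k) + (∑ k, (n N k : ℝ)) ^ 2 * κ
      ≤ (C * Om + ε / 2) * (N:ℝ) ^ q + (D + (2 * N + Fintype.card ι : ℝ) ^ 2 * κ) := by linarith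
    _ ≤ (C * Om + ε / 2) * (N:ℝ) ^ q + ε / 2 * (N:ℝ) ^ q := by linarith
    _ = _ := by ring

end Pool.Agent.TH617.RZ
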